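import Pool.Agent.NPG.Stmts

set_option autoImplicit false

open Set Topology

namespace Pool.Agent.NPG.H15

open Pool.Agent.LSG Pool.Agent.NPG

theorem cov (sto : StoStmt) : CovStmt := by
  intro Q I _ _ U hUo hUc
  obtain ⟨ψ, hψ0, hψU, hψ1, hψlf, hψc⟩ := sto Q I U hUo hUc
  have hlc : ∀ c, LocallyFinite fun i => Function.support (ψ c i) := by
    intro c
    exact hψlf.comp_injective (g := fun i => (c, i)) (fun a b h => (Prod.ext_iff.1 h).2)
  let s : ℕ → Q → ℝ := fun c q => ∑ᶠ i, ψ c i q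
  have hs : ∀ c, Continuous (s c) := fun c =>
    continuous_finsum (fun i => (ψ c i).continuous) (hlc c)
  have hval : ∀ c i q, ψ c i q ≠ 0 → s c q = ψ c i q := by
    intro c i q h
    exact finsum_eq_single _ i fun j hj => by
      by_contra hne
      exact hj (hψ1 c j i q hne h)
  have hs0 : ∀ c q, 0 ≤ s c q := fun c q => finsum_nonneg fun i => hψ0 c i q
  have hsex : ∀ c q, s c q ≠ 0 → ∃ i, ψ c i q ≠ 0 := by
    intro c q h
    by_contra hn
    push Not at hn
    apply h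
    change ∑ᶠ i, ψ c i q = 0
    rw [finsum_congr hn, finsum_zero]
  have hslf : LocallyFinite fun c => Function.support (s c) := by
    intro q
    obtain ⟨t, ht, hf⟩ := hψlf q
    refine ⟨t, ht, (hf.image Prod.fst).subset ?_⟩
    rintro c ⟨y, hy, hyt⟩
    obtain ⟨i, hi⟩ := hsex c y hy
    exact ⟨(c, i), ⟨y, hi, hyt⟩, rfl⟩
  have hspos : ∀ q, ∃ c, 0 < s c q := by
    intro q
    obtain ⟨c, i, h⟩ := hψc q
    refine ⟨c, ?_⟩
    rw [hval c i q h]
    exact lt_of_le_of_ne (hψ0 c i q) (Ne.symm h)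
  let D : ℕ → Set Q := fun c => {q | ∀ c', s c' q ≤ s c q}
  have hDpos : ∀ c q, q ∈ D c → 0 < s c q := fun c q hq => by
    obtain ⟨c', h⟩ := hspos q
    exact h.trans_le (hq c')
  have hx : ∀ (c : ℕ) (q : Q), ∃ i : I, (∃ j, ψ c j q ≠ 0) → ψ c i q ≠ 0 := by
    intro c q
    by_cases h : ∃ j, ψ c j q ≠ 0
    · obtain ⟨j, hj⟩ := h
      exact ⟨j, fun _ => hj⟩
    · obtain ⟨i, _⟩ := hUc q
      exact ⟨i, fun h' => absurd h' h⟩
  choose ξ hξ using hx
  have hξD : ∀ c q, q ∈ D c → ψ c (ξ c q) q ≠ 0 := fun c q hq =>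
    hξ c q (hsex c q (hDpos c q hq).ne')
  refine ⟨D, ξ, ?_, ?_, ?_, ?_, ?_⟩
  · intro c
    have h : D c = ⋂ c', {q | s c' q ≤ s c q} := by
      ext q
      simp only [D, mem_setOf_eq, mem_iInter]
    rw [h]
    exact isClosed_iInter fun c' => isClosed_le (hs c') (hs c)
  · exact hslf.subset fun c q hq => (hDpos c q hq).ne'
  · intro q
    have hfin : {c | q ∈ Function.support (s c)}.Finite := hslf.point_finite q
    have hne : (hfin.toFinset).Nonempty := by
      obtain ⟨c, hc⟩ := hspos q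
      exact ⟨c, by rw [Set.Finite.mem_toFinset]; exact hc.ne'⟩
    obtain ⟨c, _, hmax⟩ := Finset.exists_max_image hfin.toFinset (fun c => s c q) hne
    refine ⟨c, fun c' => ?_⟩
    by_cases h : s c' q = 0
    · rw [h]
      exact hs0 c q
    · exact hmax c' (by rw [Set.Finite.mem_toFinset]; exact h)
  · intro c q hq
    exact hψU c _ q (hξD c q hq)
  · intro c q hq
    have hnh : {q' | ψ c (ξ c q) q' ≠ 0} ∈ nhds q :=
      (isOpen_ne_fun (ψ c (ξ c q)).continuous continuous_const).mem_nhds (hξD c q hq)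
    filter_upwards [hnh] with q' hq' hD
    exact hψ1 c _ _ q' (hξD c q' hD) hq'

end Pool.Agent.NPG.H15
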